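import Mathlib
import Pool.Agent.Lib.MP_5bc52d_co.Sym.Conj

/-!
# Iterated derivations between a splitting and its inverse
-/

open Finset Polynomial

namespace Pool.Agent.Lib.MP_5bc52d_co

namespace Splitting

variable {A : Type*} [CommRing A] (S : Splitting A)

/-- additive maps with the binomial Leibniz rule -/
structure IsHS (D : ℕ → A → A) : Prop where
  zero : ∀ f, D 0 f = f
  add : ∀ m f g, D m (f + g) = D m f + D m g
  mul : ∀ m f g, D m (f * g) =
    ∑ ij ∈ antidiagonal m, (m.choose ij.1 : A) * (D ij.1 f * D ij.2 g)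

/-- the additive map -/
def IsHS.hom {D : ℕ → A → A} (h : IsHS D) (m : ℕ) : A →+ A := AddMonoidHom.mk' (D m) (h.add m)

theorem IsHS.hom_apply {D : ℕ → A → A} (h : IsHS D) (m : ℕ) (f : A) : h.hom m f = D m f := rfl

theorem IsHS.zero' {D : ℕ → A → A} (h : IsHS D) (m : ℕ) : D m 0 = 0 := (h.hom m).map_zero

theorem IsHS.sum {D : ℕ → A → A} (h : IsHS D) (m : ℕ) {ι : Type*} (s : Finset ι) (f : ι → A) :
    D m (∑ i ∈ s, f i) = ∑ i ∈ s, D m (f i) := map_sum (h.hom m) f s

theorem IsHS.intCast_mul {D : ℕ → A → A} (h : IsHS D) (m : ℕ) (z : ℤ) (f : A) :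
    D m ((z : A) * f) = (z : A) * D m f := by
  have := map_zsmul (h.hom m) z f
  rw [zsmul_eq_mul, zsmul_eq_mul] at this
  exact this

theorem IsDer.isHS {D : A → A} (h : IsDer D) : IsHS (fun m => D^[m]) := by
  refine ⟨fun f => rfl, fun m f g => ?_, fun m f g => ?_⟩
  · induction m with
    | zero => rfl
    | succ m ih =>
      simp only [Function.iterate_succ_apply'] at ih ⊢
      rw [ih, h.add]
  · induction m with
    | zero => simp
    | succ m ih =>
      have h1 := Finset.sum_antidiagonal_choose_succ_mul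
        (fun i j => D^[i] f * D^[j] g) m
      beta_reduce at ih ⊢
      rw [h1, Function.iterate_succ_apply', ih, h.sum, ← Finset.sum_add_distrib]
      apply Finset.sum_congr rfl
      intro ij hij
      rw [HasAntidiagonal.mem_antidiagonal] at hij
      have h2 : m.choose ij.2 = m.choose ij.1 := by
        rw [← hij, Nat.add_comm, Nat.choose_symm_add, Nat.add_comm]
      have h3 : ∀ (n : ℕ) (a : A), D ((n : A) * a) = (n : A) * D a := by
        intro n a
        have := map_nsmul (AddMonoidHom.mk' D h.add) n a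
        rw [nsmul_eq_mul, nsmul_eq_mul] at this
        exact this
      rw [h2, h3, h.mul, Function.iterate_succ_apply', Function.iterate_succ_apply']
      ring

theorem coeff_mapD' {D : A → A} (hD : D 0 = 0) (p : A[X]) (k : ℕ) :
    (mapD D p).coeff k = D (p.coeff k) := by
  rw [mapD, finsetSum_coeff]
  simp only [coeff_monomial]
  rw [Finset.sum_ite_eq']
  split_ifs with h
  · rfl
  · rw [Polynomial.notMem_support_iff.mp h, hD]

theorem mapD_mul' {D : ℕ → A → A} (hD : IsHS D) (m : ℕ) (p q : A[X]) :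
    mapD (D m) (p * q) =
      ∑ ij ∈ antidiagonal m, (m.choose ij.1 : A[X]) * (mapD (D ij.1) p * mapD (D ij.2) q) := by
  ext1 k
  rw [coeff_mapD' (hD.zero' m), coeff_mul, hD.sum, finsetSum_coeff]
  simp only [hD.mul]
  rw [Finset.sum_comm]
  apply Finset.sum_congr rfl
  intro ij _
  rw [← C_eq_natCast, coeff_C_mul, coeff_mul, Finset.mul_sum]
  apply Finset.sum_congr rfl
  intro x _
  rw [coeff_mapD' (hD.zero' _), coeff_mapD' (hD.zero' _)]

/-- the value at a polynomial variable equal to `1` -/
noncomputable def sg {K : Type*} [CommRing K] (F₁ : A →+* A[X]) (F₂ : A[X] →+* A[X])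
    (D : ℕ → A → A) (ε : A →+* K) (m : ℕ) (f : A) : K :=
  ε ((F₂ (mapD (D m) (F₁ f))).eval 1)

section
variable {K : Type*} [CommRing K] {F₁ : A →+* A[X]} {F₂ : A[X] →+* A[X]} {D : ℕ → A → A}
  {ε : A →+* K}

theorem sg_mul (hD : IsHS D) (m : ℕ) (f g : A) :
    sg F₁ F₂ D ε m (f * g) =
      ∑ ij ∈ antidiagonal m, (m.choose ij.1 : K) * (sg F₁ F₂ D ε ij.1 f * sg F₁ F₂ D ε ij.2 g) := by
  simp only [sg]
  rw [map_mul, mapD_mul' hD, map_sum, eval_finsetSum, map_sum]
  apply Finset.sum_congr rfl
  intro ij _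
  rw [map_mul, map_mul, eval_mul, eval_mul, map_mul, map_mul, map_natCast, eval_natCast,
    map_natCast]

theorem mapD_zero_eq (hD : IsHS D) (p : A[X]) : mapD (D 0) p = p := by
  ext1 k
  rw [coeff_mapD' (hD.zero' 0), hD.zero]

theorem sg_zero (hD : IsHS D) (h : ∀ f, F₂ (F₁ f) = C f) (f : A) :
    sg F₁ F₂ D ε 0 f = ε f := by
  rw [sg, mapD_zero_eq hD, h, eval_C]

theorem sg_vanish (m : ℕ) (f : A) (h : ∀ k, D m ((F₁ f).coeff k) = 0) :
    sg F₁ F₂ D ε m f = 0 := by
  have h1 : mapD (D m) (F₁ f) = 0 := by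
    rw [mapD]
    apply Finset.sum_eq_zero
    intro k _
    rw [h, monomial_zero_right]
  rw [sg, h1, map_zero, eval_zero, map_zero]

end

theorem coeff_Ehat (p : A[X]) (k : ℕ) :
    (S.Ehat p).coeff k = ∑ ij ∈ antidiagonal k, S.qp ij.1 (p.coeff ij.2) := by
  induction p using Polynomial.induction_on' with
  | add p q hp hq =>
    rw [map_add, coeff_add, hp, hq, ← Finset.sum_add_distrib]
    apply Finset.sum_congr rfl
    intro ij _
    rw [coeff_add, S.qp_add]
  | monomial n a =>
    rw [← C_mul_X_pow_eq_monomial, map_mul, map_pow, Ehat_C, Ehat_X, coeff_mul_X_pow']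
    split_ifs with h
    · rw [coeff_E, Finset.sum_eq_single (k - n, n)]
      · simp
      · intro ij hij hne
        rw [HasAntidiagonal.mem_antidiagonal] at hij
        rw [coeff_C_mul, coeff_X_pow, if_neg, mul_zero, S.qp_zero']
        intro h1
        apply hne
        ext
        · simp only; omega
        · exact h1
      · intro h1
        exfalso
        apply h1
        rw [HasAntidiagonal.mem_antidiagonal]
        simp only
        omega
    · symm
      apply Finset.sum_eq_zero
      intro ij hij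
      rw [HasAntidiagonal.mem_antidiagonal] at hij
      rw [coeff_C_mul, coeff_X_pow, if_neg (by omega), mul_zero, S.qp_zero']

/-- subgroups stable under the splitting are stable under its inverse -/
theorem coeff_N_mem (T : AddSubgroup A) (hT : ∀ k, ∀ f ∈ T, S.qp k f ∈ T) {f : A} (hf : f ∈ T)
    (k : ℕ) : (S.N f).coeff k ∈ T := by
  induction k using Nat.strong_induction_on with
  | _ k ih =>
    have h1 : (S.Ehat (S.N f)).coeff k = (C f : A[X]).coeff k := by rw [S.Ehat_N]
    rw [coeff_Ehat] at h1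
    have h2 : ((0 : ℕ), k) ∈ antidiagonal k := by
      rw [HasAntidiagonal.mem_antidiagonal]
      simp
    rw [← Finset.add_sum_erase _ _ h2, S.qp_zero] at h1
    rw [eq_sub_of_add_eq h1]
    apply T.sub_mem
    · rw [coeff_C]
      split_ifs
      · exact hf
      · exact T.zero_mem
    · apply T.sum_mem
      intro ij hij
      rw [Finset.mem_erase, HasAntidiagonal.mem_antidiagonal] at hij
      apply hT
      apply ih
      by_contra h3
      apply hij.1
      ext
      · simp only; omega
      · simp only; omega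

theorem eval_hat_mem (T : AddSubgroup A) (F : A →+* A[X]) (hF : ∀ a ∈ T, ∀ k, (F a).coeff k ∈ T)
    (p : A[X]) (hp : ∀ k, p.coeff k ∈ T) : ((eval₂RingHom F X) p).eval 1 ∈ T := by
  rw [coe_eval₂RingHom, eval₂_eq_sum, Polynomial.sum, eval_finsetSum]
  apply T.sum_mem
  intro k _
  rw [eval_mul, eval_pow, eval_X, one_pow, mul_one, eval_eq_sum, Polynomial.sum]
  apply T.sum_mem
  intro j _
  rw [one_pow, mul_one]
  exact hF _ (hp k) j

end Splitting

end Pool.Agent.Lib.MP_5bc52d_co
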