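import Mathlib
import Pool.Agent.Lib.MP_5bc52d_co.Gamma
import Pool.Agent.Lib.MP_5bc52d_co.Sym.Final

/-!
# Gauss' lemma for quasisymmetric functions, and the content of a generating function
-/

open Finset

set_option linter.unusedSectionVars false

namespace Pool.Agent.Lib.MP_5bc52d_co

theorem coeff_shift_gauss {F : R} (hF : IsQS F) {m : ℕ →₀ ℕ} (hm : m ≠ 0) :
    ∃ (k : ℕ) (m' : ℕ →₀ ℕ), 1 ≤ k ∧
      MvPowerSeries.coeff m F = MvPowerSeries.coeff m' (part k F) := by
  have hne : m.support.Nonempty := by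
    rw [Finset.nonempty_iff_ne_empty]
    intro h
    exact hm (Finsupp.support_eq_empty.mp h)
  set i₀ := m.support.min' hne with hi₀
  have hinj : Function.Injective (fun i => i + i₀) := fun a b h => by simpa using h
  set m' : ℕ →₀ ℕ := m.comapDomain (fun i => i + i₀) hinj.injOn with hm'
  have hmm' : Finsupp.mapDomain (fun i => i + i₀) m' = m := by
    apply Finsupp.mapDomain_comapDomain
    · exact hinj
    · intro i hi
      have h1 : i₀ ≤ i := m.support.min'_le i hi
      exact ⟨i - i₀, by simp; omega⟩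
  refine ⟨m' 0, tl m', ?_, ?_⟩
  · have h2 : m' 0 = m i₀ := by
      rw [hm']
      simp
    rw [h2]
    have := m.support.min'_mem hne
    rw [Finsupp.mem_support_iff] at this
    exact Nat.one_le_iff_ne_zero.mpr this
  · rw [coeff_part, sh_tl, ← hF.2 m' (fun i => i + i₀) (fun a b h => by simpa using h), hmm']

theorem values_finite (N : ℕ) : ∀ F : R, IsQS F →
    (∀ m : ℕ →₀ ℕ, N < m.sum (fun _ e => e) → MvPowerSeries.coeff m F = 0) →
    (Set.range (fun m : ℕ →₀ ℕ => MvPowerSeries.coeff m F)).Finite := by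
  induction N using Nat.strong_induction_on with
  | _ N ih =>
    intro F hF hN
    have h1 : (⋃ k ∈ Finset.Icc 1 N,
        Set.range (fun m : ℕ →₀ ℕ => MvPowerSeries.coeff m (part k F))).Finite := by
      apply Set.Finite.biUnion (Finset.finite_toSet _)
      intro k hk
      rw [Finset.mem_coe, Finset.mem_Icc] at hk
      apply ih (N - k) (by omega) (part k F) (part_isQS k hF)
      intro m hm
      rw [coeff_part]
      apply hN
      rw [deg_sh]
      omega
    refine ((h1.insert 0).insert (MvPowerSeries.coeff 0 F)).subset ?_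
    rintro _ ⟨m, rfl⟩
    beta_reduce
    by_cases hm : m = 0
    · left
      rw [hm]
    · right
      obtain ⟨k, m', hk, h2⟩ := coeff_shift_gauss hF hm
      rw [h2]
      by_cases hkN : k ≤ N
      · right
        rw [Set.mem_iUnion₂]
        exact ⟨k, Finset.mem_Icc.mpr ⟨hk, hkN⟩, m', rfl⟩
      · left
        rw [coeff_part]
        apply hN
        rw [deg_sh]
        omega

/-- integer coefficients without a common prime factor -/
def Prim (Z : MvPowerSeries ℕ ℤ) : Prop :=
  ∀ p : ℕ, p.Prime → MvPowerSeries.map (Int.castRingHom (ZMod p)) Z ≠ 0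

theorem exists_primitive {F : R} (hF : IsQS F) (h0 : F ≠ 0) :
    ∃ (c : ℚ) (Z : MvPowerSeries ℕ ℤ), c ≠ 0 ∧
      MvPowerSeries.map (Int.castRingHom ℚ) Z = MvPowerSeries.C c * F ∧ Prim Z := by
  classical
  obtain ⟨N, hN⟩ := hF.1
  have hfin := values_finite N F hF hN
  obtain ⟨b, hb⟩ := IsLocalization.exist_integer_multiples_of_finset (nonZeroDivisors ℤ)
    hfin.toFinset
  have hz : ∀ m : ℕ →₀ ℕ, ∃ z : ℤ, (z : ℚ) = (b : ℤ) * MvPowerSeries.coeff m F := by
    intro m
    obtain ⟨z, hz⟩ := hb (MvPowerSeries.coeff m F) (by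
      rw [Set.Finite.mem_toFinset]
      exact ⟨m, rfl⟩)
    refine ⟨z, ?_⟩
    rw [eq_intCast] at hz
    rw [hz, zsmul_eq_mul]
  choose z hz using hz
  have hb0 : (b : ℤ) ≠ 0 := nonZeroDivisors.ne_zero b.2
  have hb0' : ((b : ℤ) : ℚ) ≠ 0 := by exact_mod_cast hb0
  obtain ⟨g, hg⟩ := (IsPrincipalIdealRing.principal (Ideal.span (Set.range z))).principal
  have hg' : Ideal.span (Set.range z) = Ideal.span {g} := hg
  have hzg : ∀ m, g ∣ z m := by
    intro m
    have h1 : z m ∈ Ideal.span (Set.range z) := Ideal.subset_span ⟨m, rfl⟩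
    rw [hg', Ideal.mem_span_singleton] at h1
    exact h1
  choose y hy using hzg
  obtain ⟨m₀, hm₀⟩ : ∃ m, MvPowerSeries.coeff m F ≠ 0 := by
    by_contra hcon
    push Not at hcon
    exact h0 (MvPowerSeries.ext hcon)
  have hg0 : g ≠ 0 := by
    intro h1
    have h2 := hz m₀
    rw [hy, h1, zero_mul, Int.cast_zero] at h2
    rcases mul_eq_zero.mp h2.symm with h3 | h3
    · exact hb0' h3
    · exact hm₀ h3
  have hg0' : (g : ℚ) ≠ 0 := by exact_mod_cast hg0
  refine ⟨(b : ℤ) / g, fun m => y m, div_ne_zero hb0' hg0', ?_, ?_⟩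
  · ext m
    rw [MvPowerSeries.coeff_map, MvPowerSeries.coeff_C_mul]
    change ((y m : ℤ) : ℚ) = _
    have h1 := hz m
    rw [hy, Int.cast_mul] at h1
    field_simp
    rw [mul_comm]
    exact h1
  · intro p hp h1
    have h2 : ∀ m, (p : ℤ) ∣ y m := by
      intro m
      have h3 := congrArg (MvPowerSeries.coeff m) h1
      rw [MvPowerSeries.coeff_map, map_zero] at h3
      exact (ZMod.intCast_zmod_eq_zero_iff_dvd (y m) p).mp h3
    have h3 : Ideal.span (Set.range z) ≤ Ideal.span {g * (p : ℤ)} := by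
      rw [Ideal.span_le]
      rintro _ ⟨m, rfl⟩
      rw [SetLike.mem_coe, Ideal.mem_span_singleton, hy]
      exact mul_dvd_mul_left g (h2 m)
    rw [hg', Ideal.span_singleton_le_iff_mem, Ideal.mem_span_singleton] at h3
    have h4 : (p : ℤ) ∣ 1 := by
      have h5 : g * (p : ℤ) ∣ g * 1 := by rwa [mul_one]
      exact (mul_dvd_mul_iff_left hg0).mp h5
    have h5 : p ∣ 1 := by exact_mod_cast h4
    exact hp.one_lt.ne' (Nat.dvd_one.mp h5)

theorem Prim.mul {A B : MvPowerSeries ℕ ℤ} (hA : Prim A) (hB : Prim B) : Prim (A * B) := by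
  intro p hp
  have : Fact p.Prime := ⟨hp⟩
  rw [map_mul]
  exact mul_ne_zero (hA p hp) (hB p hp)

theorem Prim.eq_one {A B : MvPowerSeries ℕ ℤ} (hA : Prim A) (hB : Prim B) {u : ℚ}
    (h : MvPowerSeries.map (Int.castRingHom ℚ) A =
      MvPowerSeries.C u * MvPowerSeries.map (Int.castRingHom ℚ) B) : u = 1 ∨ u = -1 := by
  have hinj : Function.Injective (MvPowerSeries.map (σ := ℕ) (Int.castRingHom ℚ)) := by
    intro X Y hXY
    ext m
    have h1 := congrArg (MvPowerSeries.coeff m) hXY
    rw [MvPowerSeries.coeff_map, MvPowerSeries.coeff_map] at h1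
    exact Int.cast_injective (α := ℚ) h1
  have h1 : MvPowerSeries.C (u.den : ℤ) * A = MvPowerSeries.C u.num * B := by
    apply hinj
    rw [map_mul, map_mul, h, MvPowerSeries.map_C, MvPowerSeries.map_C, ← mul_assoc, ← map_mul]
    congr 2
    simp only [eq_intCast, Int.cast_natCast]
    rw [mul_comm]
    exact Rat.mul_den_eq_num u
  have h2 : ∀ p : ℕ, p.Prime → ((p : ℤ) ∣ (u.den : ℤ) ↔ (p : ℤ) ∣ u.num) := by
    intro p hp
    have : Fact p.Prime := ⟨hp⟩
    have h3 := congrArg (MvPowerSeries.map (Int.castRingHom (ZMod p))) h1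
    rw [map_mul, map_mul, MvPowerSeries.map_C, MvPowerSeries.map_C] at h3
    rw [← ZMod.intCast_zmod_eq_zero_iff_dvd, ← ZMod.intCast_zmod_eq_zero_iff_dvd]
    have hCinj : Function.Injective (MvPowerSeries.C (σ := ℕ) (R := ZMod p)) := by
      intro x y hxy
      have := congrArg (MvPowerSeries.coeff 0) hxy
      simpa using this
    constructor
    · intro h4
      rw [eq_intCast, h4, map_zero, zero_mul] at h3
      have h5 := (mul_eq_zero.mp h3.symm).resolve_right (hB p hp)
      apply hCinj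
      rw [map_zero]
      exact h5
    · intro h4
      rw [eq_intCast (Int.castRingHom (ZMod p)) u.num, h4, map_zero, zero_mul] at h3
      have h5 := (mul_eq_zero.mp h3).resolve_right (hA p hp)
      apply hCinj
      rw [map_zero]
      exact h5
  have h3 : u.den = 1 := by
    by_contra h4
    obtain ⟨p, hp, hpd⟩ := Nat.exists_prime_and_dvd h4
    have h5 : (p : ℤ) ∣ u.num := (h2 p hp).mp (by exact_mod_cast hpd)
    have h6 : p ∣ u.num.natAbs := Int.natCast_dvd.mp h5
    have h7 := Nat.dvd_gcd h6 hpd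
    rw [u.reduced] at h7
    exact hp.one_lt.ne' (Nat.dvd_one.mp h7)
  have h4 : u.num.natAbs = 1 := by
    by_contra h4
    obtain ⟨p, hp, hpd⟩ := Nat.exists_prime_and_dvd h4
    have h5 : (p : ℤ) ∣ u.num := Int.natCast_dvd.mpr hpd
    have h6 := (h2 p hp).mpr h5
    rw [h3] at h6
    have h7 : p ∣ 1 := by exact_mod_cast h6
    exact hp.one_lt.ne' (Nat.dvd_one.mp h7)
  have h5 : u = u.num := by
    have := Rat.num_div_den u
    rw [h3] at this
    rw [← this]
    simp
  rcases Int.natAbs_eq u.num with h6 | h6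
  · left
    rw [h5, h6, h4]
    simp
  · right
    rw [h5, h6, h4]
    simp

variable {P : Type*} [Fintype P] [DecidableEq P] [PartialOrder P]

theorem exists_card_one (ω : P → ℕ) (hω : Function.Injective ω) (n : ℕ) :
    ∀ U : Finset P, U.card ≤ n → ∃ m : ℕ →₀ ℕ, Nat.card (Sol ω U m) = 1 := by
  classical
  induction n with
  | zero =>
    intro U hU
    refine ⟨0, ?_⟩
    have h1 := coeff_zero_Gam ω U
    rw [coeff_Gam, if_pos (Finset.card_eq_zero.mp (by omega))] at h1
    exact_mod_cast h1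
  | succ n ih =>
    intro U hU
    by_cases hUe : U = ∅
    · exact ih U (by rw [hUe]; simp)
    set Wr : Finset P → Finset P → Prop :=
      Wk (fun a b : P => a < b) (fun p => (ω p : ℤ)) with hWr
    set I : Finset P := U.filter (fun b => ∃ I' : Finset P, Wr U I' ∧ b ∈ I') with hI
    have hIW : Wr U I := by
      refine ⟨Finset.filter_subset _ _, fun a ha b hb hab => ?_⟩
      rw [hI, Finset.mem_filter] at hb ⊢
      obtain ⟨I', h1, h2⟩ := hb.2
      have h3 := h1.2 a ha b h2 hab
      exact ⟨⟨ha, I', h1, h3.1⟩, h3.2⟩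
    have hmax : ∀ I', Wr U I' → I' ⊆ I := by
      intro I' h1 b hb
      rw [hI, Finset.mem_filter]
      exact ⟨h1.1 hb, I', h1, hb⟩
    have hIne : I.Nonempty := by
      obtain ⟨x, hx, hmin⟩ := U.exists_minimal (Finset.nonempty_iff_ne_empty.mpr hUe)
      refine ⟨x, hmax {x} ⟨Finset.singleton_subset_iff.mpr hx, fun a ha b hb hab => ?_⟩
        (Finset.mem_singleton_self x)⟩
      rw [Finset.mem_singleton] at hb
      subst hb
      exact absurd (hmin ha hab.le) (not_le_of_gt hab)
    obtain ⟨m, hm⟩ := ih (U \ I) (by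
      have h1 := Finset.card_sdiff_add_card_eq_card hIW.1
      have h2 := Finset.card_pos.mpr hIne
      omega)
    refine ⟨sh I.card m, ?_⟩
    rw [card_split ω U I.card m hω, Finset.sum_eq_single I]
    · exact hm
    · intro I' hI' hne
      rw [Finset.mem_filter, mem_wks] at hI'
      exact absurd (Finset.eq_of_subset_of_card_le (hmax I' hI'.1) hI'.2.ge) hne
    · intro h
      exfalso
      apply h
      rw [Finset.mem_filter, mem_wks]
      exact ⟨hIW, rfl⟩

/-- the generating function with integer coefficients -/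
noncomputable def GamZ (ω : P → ℕ) (U : Finset P) : MvPowerSeries ℕ ℤ :=
  fun m => (Nat.card (Sol ω U m) : ℤ)

theorem map_GamZ (ω : P → ℕ) (U : Finset P) :
    MvPowerSeries.map (Int.castRingHom ℚ) (GamZ ω U) = Gam ω U := by
  ext m
  rw [MvPowerSeries.coeff_map, coeff_Gam]
  change (((Nat.card (Sol ω U m) : ℕ) : ℤ) : ℚ) = _
  simp

theorem prim_GamZ (ω : P → ℕ) (hω : Function.Injective ω) (U : Finset P) :
    Prim (GamZ ω U) := by
  intro p hp h
  obtain ⟨m, hm⟩ := exists_card_one ω hω U.card U le_rfl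
  have h1 := congrArg (MvPowerSeries.coeff m) h
  rw [MvPowerSeries.coeff_map, map_zero] at h1
  have h2 : MvPowerSeries.coeff m (GamZ ω U) = 1 := by
    change ((Nat.card (Sol ω U m) : ℕ) : ℤ) = 1
    rw [hm]
    rfl
  rw [h2, map_one] at h1
  have : Fact p.Prime := ⟨hp⟩
  exact one_ne_zero h1

end Pool.Agent.Lib.MP_5bc52d_co
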