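import Mathlib
import Pool.Agent.Lib.MP_5bc52d_co.Bottom
import Pool.Agent.Lib.MP_5bc52d_co.Sym.Rep
import Pool.Agent.Lib.MP_5bc52d_co.Sym.Final
import Pool.Agent.Lib.MP_5bc52d_co.Lin.Leib

/-!
# Linear extensions
-/

open Finset Polynomial

set_option linter.unusedSectionVars false

namespace Pool.Agent.Lib.MP_5bc52d_co

/-- the exponent `(1, …, 1)` with `m` ones -/
noncomputable def ones : ℕ → ℕ →₀ ℕ
  | 0 => 0
  | m + 1 => sh 1 (ones m)

theorem ones_apply (m i : ℕ) : ones m i = if i < m then 1 else 0 := by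
  induction m generalizing i with
  | zero => simp [ones]
  | succ m ih =>
    rw [ones]
    cases i with
    | zero => simp [sh_zero]
    | succ i =>
      rw [sh_succ, ih]
      simp only [Nat.succ_lt_succ_iff]

theorem deg_ones (m : ℕ) : (ones m).sum (fun _ e => e) = m := by
  induction m with
  | zero => simp [ones]
  | succ m ih => rw [ones, deg_sh, ih, Nat.add_comm]

variable {P : Type*} [Fintype P] [DecidableEq P] [PartialOrder P]

/-- the number of linear extensions of the order induced on `M` -/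
noncomputable def lext (M : Finset P) : ℕ :=
  Nat.card {f : {x // x ∈ M} ≃ Fin M.card // StrictMono f}

theorem card_Sol_ne (ω : P → ℕ) (M : Finset P) {m : ℕ} (h : M.card ≠ m) :
    Nat.card (Sol ω M (ones m)) = 0 := by
  have h1 : Sol ω M (ones m) = ∅ := by
    rw [Set.eq_empty_iff_forall_notMem]
    intro f hf
    have h2 := deg_cnt M f
    rw [hf.2.2, deg_ones] at h2
    exact h h2.symm
  rw [h1]
  simp

theorem card_Sol_ones (ω : P → ℕ) (M : Finset P) :
    Nat.card (Sol ω M (ones M.card)) = lext M := by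
  symm
  rw [lext]
  refine Nat.card_congr (Equiv.ofBijective
    (fun f : {f : {x // x ∈ M} ≃ Fin M.card // StrictMono f} =>
      (⟨fun p => if hp : p ∈ M then (f.1 ⟨p, hp⟩ : ℕ) else 0, ?_⟩ :
        Sol ω M (ones M.card))) ⟨?_, ?_⟩)
  · obtain ⟨f, hf⟩ := f
    refine ⟨fun p hp => dif_neg hp, fun a ha b hb hab => ?_, ?_⟩
    · dsimp only
      rw [dif_pos ha, dif_pos hb]
      have h1 : f ⟨a, ha⟩ < f ⟨b, hb⟩ := hf hab
      have h2 : (f ⟨a, ha⟩ : ℕ) < (f ⟨b, hb⟩ : ℕ) := h1
      exact ⟨h2.le, fun _ => h2⟩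
    · ext i
      rw [cnt_apply, ones_apply]
      split_ifs with hi
      · rw [Finset.card_eq_one]
        refine ⟨(f.symm ⟨i, hi⟩ : P), ?_⟩
        ext p
        rw [Finset.mem_filter, Finset.mem_singleton]
        constructor
        · rintro ⟨hp, h1⟩
          rw [dif_pos hp] at h1
          have h2 : f ⟨p, hp⟩ = ⟨i, hi⟩ := Fin.ext h1
          rw [← h2, Equiv.symm_apply_apply]
        · rintro rfl
          refine ⟨(f.symm ⟨i, hi⟩).2, ?_⟩
          rw [dif_pos (f.symm ⟨i, hi⟩).2]
          simp
      · rw [Finset.card_eq_zero, Finset.filter_eq_empty_iff]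
        intro p hp h1
        rw [dif_pos hp] at h1
        have := (f ⟨p, hp⟩).2
        omega
  · rintro ⟨f, hf⟩ ⟨g, hg⟩ h
    rw [Subtype.mk.injEq] at h ⊢
    ext ⟨p, hp⟩
    have := congrFun h p
    rw [dif_pos hp, dif_pos hp] at this
    exact this
  · rintro ⟨g, hg⟩
    have hlt : ∀ p : {x // x ∈ M}, g p < M.card := by
      intro p
      by_contra h1
      have h2 := mem_support_cnt (f := g) p.2
      rw [Finsupp.mem_support_iff, hg.2.2, ones_apply, if_neg h1] at h2
      exact h2 rfl
    have hinj : Function.Injective (fun p : {x // x ∈ M} => (⟨g p, hlt p⟩ : Fin M.card)) := by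
      intro p q hpq
      have h1 : g p = g q := congrArg Fin.val hpq
      have h2 : cnt M g (g p) = 1 := by
        rw [hg.2.2, ones_apply, if_pos (hlt p)]
      rw [cnt_apply, Finset.card_eq_one] at h2
      obtain ⟨x, hx⟩ := h2
      have h3 : (p : P) ∈ M.filter (fun y => g y = g p) := Finset.mem_filter.mpr ⟨p.2, rfl⟩
      have h4 : (q : P) ∈ M.filter (fun y => g y = g p) := Finset.mem_filter.mpr ⟨q.2, h1.symm⟩
      rw [hx, Finset.mem_singleton] at h3 h4
      exact Subtype.ext (h3.trans h4.symm)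
    have hcard : Fintype.card {x // x ∈ M} = Fintype.card (Fin M.card) := by simp
    have hbij := (Fintype.bijective_iff_injective_and_card _).mpr ⟨hinj, hcard⟩
    refine ⟨⟨Equiv.ofBijective _ hbij, fun p q hpq => ?_⟩, ?_⟩
    · have h1 := (hg.2.1 p p.2 q q.2 hpq).1
      have h2 : g p ≠ g q := fun h3 => by
        have h4 := hinj (Fin.ext h3 : (⟨g p, hlt p⟩ : Fin M.card) = ⟨g q, hlt q⟩)
        exact (ne_of_lt hpq) h4
      change g p < g q
      omega
    · apply Subtype.ext
      funext p
      dsimp only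
      split_ifs with hp
      · rfl
      · exact (hg.1 p hp).symm

theorem card_Sol_zero (ω : P → ℕ) (M : Finset P) :
    Nat.card (Sol ω M 0) = if M = ∅ then 1 else 0 := by
  have h1 := coeff_zero_Gam ω M
  rw [coeff_Gam] at h1
  split_ifs at h1 ⊢ with h
  · exact_mod_cast h1
  · exact_mod_cast h1

/-- removing the smallest element of a linear extension -/
theorem card_Sol_succ (ω : P → ℕ) (hω : Function.Injective ω) (M : Finset P) (m : ℕ) :
    Nat.card (Sol ω M (ones (m + 1))) =
      ∑ I ∈ (wks (fun a b : P => a < b) (fun p => (ω p : ℤ)) M) with I.card = 1,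
        Nat.card (Sol ω (M \ I) (ones m)) := by
  rw [ones, card_split ω M 1 (ones m) hω]

open Classical in
/-- the coefficients of the iterated derivative -/
noncomputable def LL (ω : P → ℕ) (m : ℕ) (U M : Finset P) : ℤ :=
  if Dn (fun a b : P => a < b) U M then (Nat.card (Sol ω M (ones m)) : ℤ) else 0

open Classical in
theorem LL_succ_sum {B : Type*} [AddCommMonoid B] (ω : P → ℕ)
    (U I : Finset P) (hI : Wk (fun a b : P => a < b) (fun p => (ω p : ℤ)) U I)
    (g : Finset P → Finset P → B) :
    (∑ M' : Finset P, if Dn (fun a b : P => a < b) (U \ I) M' then g M' (I ∪ M') else 0) =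
    (∑ M : Finset P,
      if Dn (fun a b : P => a < b) U M ∧ Wk (fun a b : P => a < b) (fun p => (ω p : ℤ)) M I
        then g (M \ I) M else 0) := by
  rw [← Finset.sum_filter, ← Finset.sum_filter]
  refine Finset.sum_nbij' (fun M' => I ∪ M') (fun M => M \ I) ?_ ?_ ?_ ?_ ?_
  · intro M' hM'
    rw [Finset.mem_filter] at hM' ⊢
    refine ⟨Finset.mem_univ _, ⟨?_, ?_⟩, Finset.subset_union_left, ?_⟩
    · exact Finset.union_subset hI.1 (hM'.2.1.trans Finset.sdiff_subset)
    · intro a ha b hb hab
      rw [Finset.mem_union] at hb ⊢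
      rcases hb with hb | hb
      · exact Or.inl (hI.2 a ha b hb hab).1
      · by_cases haI : a ∈ I
        · exact Or.inl haI
        · exact Or.inr (hM'.2.2 a (Finset.mem_sdiff.mpr ⟨ha, haI⟩) b hb hab)
    · intro a ha b hb hab
      have haU : a ∈ U := by
        rw [Finset.mem_union] at ha
        rcases ha with ha | ha
        · exact hI.1 ha
        · exact (Finset.mem_sdiff.mp (hM'.2.1 ha)).1
      exact hI.2 a haU b hb hab
  · intro M hM
    rw [Finset.mem_filter] at hM ⊢
    refine ⟨Finset.mem_univ _, Finset.sdiff_subset_sdiff hM.2.1.1 subset_rfl, ?_⟩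
    intro a ha b hb hab
    rw [Finset.mem_sdiff] at ha hb ⊢
    exact ⟨hM.2.1.2 a ha.1 b hb.1 hab, ha.2⟩
  · intro M' hM'
    rw [Finset.mem_filter] at hM'
    rw [Finset.union_sdiff_left, Finset.sdiff_eq_self_of_disjoint]
    rw [Finset.disjoint_left]
    intro x hx
    exact (Finset.mem_sdiff.mp (hM'.2.1 hx)).2
  · intro M hM
    rw [Finset.mem_filter] at hM
    exact Finset.union_sdiff_of_subset hM.2.2.1
  · intro M' hM'
    rw [Finset.mem_filter] at hM'
    have h1 : (I ∪ M') \ I = M' := by
      rw [Finset.union_sdiff_left, Finset.sdiff_eq_self_of_disjoint]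
      rw [Finset.disjoint_left]
      intro x hx
      exact (Finset.mem_sdiff.mp (hM'.2.1 hx)).2
    rw [h1]

section
variable {A : Type*} [CommRing A] (S : Splitting A) (Γ : Finset P → A)

theorem iter_Gamma (ω : P → ℕ) (hω : Function.Injective ω)
    (hE : ∀ U k, S.qp k (Γ U) =
      ∑ I ∈ (wks (fun a b : P => a < b) (fun p => (ω p : ℤ)) U) with I.card = k, Γ (U \ I))
    (m : ℕ) (U : Finset P) :
    (S.qp 1)^[m] (Γ U) = ∑ M : Finset P, ((LL ω m U M : ℤ) : A) * Γ (U \ M) := by
  classical
  induction m generalizing U with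
  | zero =>
    rw [Function.iterate_zero, id, Finset.sum_eq_single ∅]
    · rw [LL, if_pos, ones, card_Sol_zero, if_pos rfl]
      · simp
      · exact ⟨Finset.empty_subset _, fun a _ b hb => by simp at hb⟩
    · intro M _ hM
      rw [LL, ones, card_Sol_zero, if_neg hM]
      simp
    · intro h
      exact absurd (Finset.mem_univ _) h
  | succ m ih =>
    have hHS := S.isDer_one.isHS
    have h1 := hHS.sum m
      ((wks (fun a b : P => a < b) (fun p => (ω p : ℤ)) U).filter (fun I => I.card = 1))
      (fun I => Γ (U \ I))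
    beta_reduce at h1
    rw [Function.iterate_succ_apply, hE, h1]
    have h2 : ∀ I ∈ (wks (fun a b : P => a < b) (fun p => (ω p : ℤ)) U).filter
        (fun I => I.card = 1), (S.qp 1)^[m] (Γ (U \ I)) =
        ∑ M : Finset P,
          if Dn (fun a b : P => a < b) U M ∧ Wk (fun a b : P => a < b) (fun p => (ω p : ℤ)) M I
            then ((Nat.card (Sol ω (M \ I) (ones m)) : ℕ) : A) * Γ (U \ M) else 0 := by
      intro I hI
      rw [Finset.mem_filter, mem_wks] at hI
      rw [ih, ← LL_succ_sum ω U I hI.1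
        (fun M' M => ((Nat.card (Sol ω M' (ones m)) : ℕ) : A) * Γ (U \ M))]
      apply Finset.sum_congr rfl
      intro M' _
      rw [LL]
      split_ifs with h
      · rw [sdiff_sdiff_left, Finset.sup_eq_union]
        simp
      · simp
    rw [Finset.sum_congr rfl h2, Finset.sum_comm]
    apply Finset.sum_congr rfl
    intro M _
    rw [← Finset.sum_filter, LL]
    by_cases hM : Dn (fun a b : P => a < b) U M
    · rw [if_pos hM, card_Sol_succ ω hω, Int.cast_natCast, Nat.cast_sum, Finset.sum_mul]
      apply Finset.sum_congr _ (fun _ _ => rfl)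
      ext I
      rw [Finset.mem_filter, Finset.mem_filter, Finset.mem_filter, mem_wks, mem_wks]
      constructor
      · rintro ⟨⟨h3, h4⟩, h5, h6⟩
        exact ⟨h6, h4⟩
      · rintro ⟨h3, h4⟩
        refine ⟨⟨⟨h3.1.trans hM.1, fun a ha b hb hab => ?_⟩, h4⟩, hM, h3⟩
        exact h3.2 a (hM.2 a ha b (h3.1 hb) hab) b hb hab
    · rw [if_neg hM, Finset.filter_false_of_mem]
      · simp
      · exact fun I _ h => hM h.1

end

end Pool.Agent.Lib.MP_5bc52d_co
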