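import Mathlib
import Pool.Agent.Lib.MP_5bc52d_co.Lin.Ext

/-!
# The signed counts of linear extensions
-/

open Finset Polynomial

set_option linter.unusedSectionVars false

namespace Pool.Agent.Lib.MP_5bc52d_co

variable {P : Type*} [Fintype P] [DecidableEq P] [PartialOrder P]

/-- `I` is an initial part on which `w` increases and `J` is a final part on which `w`
decreases, and they are disjoint -/
def Good (w : P → ℤ) (I J : Finset P) : Prop :=
  Disjoint I J ∧ (∀ b ∈ I, ∀ a, a < b → a ∈ I ∧ w a < w b) ∧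
    (∀ a ∈ J, ∀ b, a < b → b ∈ J ∧ w b < w a)

theorem good_of {w : P → ℤ} {I M J : Finset P} (h1 : Wk (fun a b : P => a < b) w univ I)
    (h2 : Dn (fun a b : P => a < b) (univ \ I) M)
    (h3 : Wk (fun a b : P => a < b) (-w) ((univ \ I) \ M) J)
    (h4 : ((univ \ I) \ M) \ J = ∅) : M = univ \ (I ∪ J) ∧ Good w I J := by
  have h5 : ∀ x, x ∈ J ↔ x ∉ I ∧ x ∉ M := by
    intro x
    constructor
    · intro hx
      have := h3.1 hx
      rw [Finset.mem_sdiff, Finset.mem_sdiff] at this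
      exact ⟨this.1.2, this.2⟩
    · rintro ⟨hI, hM⟩
      rw [Finset.sdiff_eq_empty_iff_subset] at h4
      apply h4
      rw [Finset.mem_sdiff, Finset.mem_sdiff]
      exact ⟨⟨Finset.mem_univ _, hI⟩, hM⟩
  have h6 : ∀ x ∈ M, x ∉ I := fun x hx => (Finset.mem_sdiff.mp (h2.1 hx)).2
  refine ⟨?_, ?_, fun b hb a hab => h1.2 a (Finset.mem_univ _) b hb hab, fun a ha b hab => ?_⟩
  · ext x
    rw [Finset.mem_sdiff, Finset.mem_union, h5]
    constructor
    · intro hx
      exact ⟨Finset.mem_univ _, fun h => h.elim (h6 x hx) (fun h => h.2 hx)⟩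
    · rintro ⟨-, hx⟩
      by_contra hM
      apply hx
      by_cases hI : x ∈ I
      · exact Or.inl hI
      · exact Or.inr ⟨hI, hM⟩
  · rw [Finset.disjoint_left]
    exact fun x hx hx' => ((h5 x).mp hx').1 hx
  · have ha' := (h5 a).mp ha
    have hbJ : b ∈ J := by
      rw [h5]
      refine ⟨fun hb => ha'.1 (h1.2 a (Finset.mem_univ _) b hb hab).1, fun hb => ha'.2 ?_⟩
      exact h2.2 a (Finset.mem_sdiff.mpr ⟨Finset.mem_univ _, ha'.1⟩) b hb hab
    refine ⟨hbJ, ?_⟩
    have := (h3.2 a (h3.1 ha) b hbJ hab).2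
    simp only [Pi.neg_apply] at this
    omega

theorem of_good {w : P → ℤ} {I J : Finset P} (h : Good w I J) :
    Wk (fun a b : P => a < b) w univ I ∧ Dn (fun a b : P => a < b) (univ \ I) (univ \ (I ∪ J)) ∧
      Wk (fun a b : P => a < b) (-w) ((univ \ I) \ (univ \ (I ∪ J))) J ∧
      ((univ \ I) \ (univ \ (I ∪ J))) \ J = ∅ := by
  obtain ⟨h1, h2, h3⟩ := h
  have h4 : (univ \ I) \ (univ \ (I ∪ J)) = J := by
    ext x
    simp only [Finset.mem_sdiff, Finset.mem_univ, true_and, not_not, Finset.mem_union]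
    constructor
    · rintro ⟨h5, h6⟩
      exact h6.resolve_left h5
    · intro h5
      exact ⟨fun h6 => Finset.disjoint_left.mp h1 h6 h5, Or.inr h5⟩
  rw [h4]
  refine ⟨⟨Finset.subset_univ _, fun a _ b hb hab => h2 b hb a hab⟩, ⟨?_, ?_⟩,
    ⟨subset_rfl, fun a ha b hb hab => ⟨ha, ?_⟩⟩, by simp⟩
  · intro x hx
    rw [Finset.mem_sdiff, Finset.mem_union] at hx
    rw [Finset.mem_sdiff]
    exact ⟨hx.1, fun h => hx.2 (Or.inl h)⟩
  · intro a ha b hb hab
    rw [Finset.mem_sdiff] at ha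
    rw [Finset.mem_sdiff, Finset.mem_union] at hb ⊢
    refine ⟨Finset.mem_univ _, fun h => ?_⟩
    rcases h with h | h
    · exact ha.2 h
    · exact hb.2 (Or.inr (h3 a h b hab).1)
  · have := (h3 a ha b hab).2
    simp only [Pi.neg_apply]
    omega

open Classical in
theorem triple_eq (w : P → ℤ) (ω : P → ℕ) (s₁ s₂ : ℤ) (m : ℕ) (hm : m ≤ Fintype.card P) :
    (∑ I : Finset P, ∑ M : Finset P, ∑ J : Finset P,
      if Wk (fun a b : P => a < b) w univ I ∧
        Wk (fun a b : P => a < b) (-w) ((univ \ I) \ M) J ∧ ((univ \ I) \ M) \ J = ∅ then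
        s₁ ^ I.card * LL ω m (univ \ I) M * s₂ ^ J.card else 0) =
    ∑ x : Finset P × Finset P,
      if Good w x.1 x.2 ∧ x.1.card + x.2.card = Fintype.card P - m then
        s₁ ^ x.1.card * s₂ ^ x.2.card * (lext (univ \ (x.1 ∪ x.2)) : ℤ) else 0 := by
  rw [Fintype.sum_prod_type]
  apply Finset.sum_congr rfl
  intro I _
  rw [Finset.sum_comm]
  apply Finset.sum_congr rfl
  intro J _
  have hcard : ∀ h : Disjoint I J,
      (univ \ (I ∪ J)).card + (I.card + J.card) = Fintype.card P := by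
    intro h
    rw [← Finset.card_union_of_disjoint h]
    have := Finset.card_sdiff_add_card_eq_card (Finset.subset_univ (I ∪ J))
    rw [Finset.card_univ] at this
    exact this
  rw [Finset.sum_eq_single (univ \ (I ∪ J))]
  · by_cases hg : Good w I J
    · obtain ⟨h1, h2, h3, h4⟩ := of_good hg
      have h5 := hcard hg.1
      rw [if_pos ⟨h1, h3, h4⟩, LL, if_pos h2]
      by_cases hc : I.card + J.card = Fintype.card P - m
      · rw [if_pos ⟨hg, hc⟩]
        have h6 : (univ \ (I ∪ J)).card = m := by omega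
        rw [← h6, card_Sol_ones]
        dsimp only
        ring
      · rw [if_neg (fun h => hc h.2), card_Sol_ne]
        · simp
        · omega
    · have h0 : ¬ (Good w I J ∧ I.card + J.card = Fintype.card P - m) := fun h => hg h.1
      rw [if_neg h0]
      split_ifs with h
      · rw [LL, if_neg]
        · ring
        · exact fun h2 => hg (good_of h.1 h2 h.2.1 h.2.2).2
      · rfl
  · intro M _ hM
    split_ifs with h
    · rw [LL, if_neg]
      · ring
      · exact fun h2 => hM (good_of h.1 h2 h.2.1 h.2.2).1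
    · rfl
  · intro h
    exact absurd (Finset.mem_univ _) h

namespace Splitting

variable {A : Type*} [CommRing A]

theorem mapD_sum' {D : ℕ → A → A} (hD : IsHS D) (m : ℕ) {ι : Type*} (s : Finset ι)
    (f : ι → A[X]) : mapD (D m) (∑ i ∈ s, f i) = ∑ i ∈ s, mapD (D m) (f i) := by
  ext1 k
  rw [coeff_mapD' (hD.zero' m), finsetSum_coeff, finsetSum_coeff, hD.sum]
  apply Finset.sum_congr rfl
  intro i _
  rw [coeff_mapD' (hD.zero' m)]

theorem mapD_CX' {D : ℕ → A → A} (hD : IsHS D) (m : ℕ) (a : A) (k : ℕ) :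
    mapD (D m) (C a * X ^ k) = C (D m a) * X ^ k := by
  ext1 j
  rw [coeff_mapD' (hD.zero' m), coeff_C_mul_X_pow, coeff_C_mul_X_pow]
  split_ifs
  · rfl
  · exact hD.zero' m

open Classical in
theorem sg_Gamma {K : Type*} [CommRing K] (Γ : Finset P → A) (F₁ F : A →+* A[X]) (ε : A →+* K)
    (s₁ s₂ : ℤ) (w₁ w₂ : P → ℤ)
    (h1 : ∀ U, F₁ (Γ U) = ∑ I ∈ wks (fun a b : P => a < b) w₁ U,
      C (((s₁ ^ I.card : ℤ) : A) * Γ (U \ I)) * X ^ I.card)
    (h2 : ∀ U, F (Γ U) = ∑ J ∈ wks (fun a b : P => a < b) w₂ U,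
      C (((s₂ ^ J.card : ℤ) : A) * Γ (U \ J)) * X ^ J.card)
    {D : ℕ → A → A} (hD : IsHS D) (m : ℕ) (L : Finset P → Finset P → ℤ)
    (hL : ∀ U, D m (Γ U) = ∑ M : Finset P, ((L U M : ℤ) : A) * Γ (U \ M))
    (hε : ∀ U, ε (Γ U) = if U = ∅ then 1 else 0) :
    sg F₁ (eval₂RingHom F X) D ε m (Γ univ) =
      ((∑ I : Finset P, ∑ M : Finset P, ∑ J : Finset P,
        if Wk (fun a b : P => a < b) w₁ univ I ∧
          Wk (fun a b : P => a < b) w₂ ((univ \ I) \ M) J ∧ ((univ \ I) \ M) \ J = ∅ then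
          s₁ ^ I.card * L (univ \ I) M * s₂ ^ J.card else 0 : ℤ) : K) := by
  have hΦ : ∀ V : Finset P, ε ((F (Γ V)).eval 1) =
      ∑ J : Finset P, if Wk (fun a b : P => a < b) w₂ V J ∧ V \ J = ∅ then
        ((s₂ ^ J.card : ℤ) : K) else 0 := by
    intro V
    rw [h2, eval_finsetSum, map_sum, ← Finset.sum_subset (Finset.subset_univ
      (wks (fun a b : P => a < b) w₂ V))]
    · apply Finset.sum_congr rfl
      intro J hJ
      rw [mem_wks] at hJ
      rw [eval_mul, eval_pow, eval_X, one_pow, mul_one, eval_C, map_mul, map_intCast, hε]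
      by_cases h : V \ J = ∅
      · rw [if_pos h, if_pos ⟨hJ, h⟩, mul_one]
      · rw [if_neg h, if_neg (fun h' => h h'.2), mul_zero]
    · intro J _ hJ
      rw [mem_wks] at hJ
      rw [if_neg (fun h => hJ h.1)]
  rw [sg, h1, mapD_sum' hD, map_sum, eval_finsetSum, map_sum, Int.cast_sum,
    ← Finset.sum_subset (Finset.subset_univ (wks (fun a b : P => a < b) w₁ univ))]
  · apply Finset.sum_congr rfl
    intro I hI
    rw [mem_wks] at hI
    rw [mapD_CX' hD, map_mul, map_pow]
    have h3 : (eval₂RingHom F X) X = X := by simp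
    have h4 : ∀ a : A, (eval₂RingHom F X) (C a) = F a := by simp
    rw [h3, h4, eval_mul, eval_pow, eval_X, one_pow, mul_one, hD.intCast_mul, map_mul,
      map_intCast, eval_mul, eval_intCast, map_mul, map_intCast, hL, map_sum, eval_finsetSum,
      map_sum, Finset.mul_sum, Int.cast_sum]
    apply Finset.sum_congr rfl
    intro M _
    rw [map_mul, map_intCast, eval_mul, eval_intCast, map_mul, map_intCast, hΦ, Finset.mul_sum,
      Finset.mul_sum, Int.cast_sum]
    apply Finset.sum_congr rfl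
    intro J _
    by_cases h : Wk (fun a b : P => a < b) w₂ ((univ \ I) \ M) J ∧ ((univ \ I) \ M) \ J = ∅
    · rw [if_pos h, if_pos ⟨hI, h⟩]
      push_cast
      ring
    · rw [if_neg h, if_neg (fun h' => h h'.2)]
      simp
  · intro I _ hI
    rw [mem_wks] at hI
    refine (congrArg (Int.cast : ℤ → K) ?_).trans Int.cast_zero
    apply Finset.sum_eq_zero
    intro M _
    apply Finset.sum_eq_zero
    intro J _
    rw [if_neg (fun h => hI h.1)]

end Splitting

end Pool.Agent.Lib.MP_5bc52d_co
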