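import Mathlib
import Pool.Agent.Lib.MP_5bc52d_co.Lin.Sum
import Pool.Agent.Lib.MP_5bc52d_co.Lin.Gauss

/-!
# A reducible generating function has a factored sequence of signed counts
-/

open Finset Polynomial

set_option linter.unusedSectionVars false

namespace Pool.Agent.Lib.MP_5bc52d_co

open Splitting

section
variable {Q : Subring R}

/-- elements with integer coefficients -/
def intQ (Q : Subring R) : AddSubgroup Q where
  carrier := {f | ∀ m : ℕ →₀ ℕ, ∃ z : ℤ, MvPowerSeries.coeff m (f : R) = z}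
  zero_mem' := fun m => ⟨0, by simp⟩
  add_mem' := by
    intro f g hf hg m
    obtain ⟨x, hx⟩ := hf m
    obtain ⟨y, hy⟩ := hg m
    refine ⟨x + y, ?_⟩
    change MvPowerSeries.coeff m ((f : R) + (g : R)) = _
    rw [map_add, hx, hy, Int.cast_add]
  neg_mem' := by
    intro f hf m
    obtain ⟨x, hx⟩ := hf m
    refine ⟨-x, ?_⟩
    change MvPowerSeries.coeff m (-(f : R)) = _
    rw [map_neg, hx, Int.cast_neg]

/-- elements of degree at most `a` -/
def degQ (Q : Subring R) (a : ℕ) : AddSubgroup Q where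
  carrier := {f | ∀ m : ℕ →₀ ℕ, a < m.sum (fun _ e => e) → MvPowerSeries.coeff m (f : R) = 0}
  zero_mem' := fun m _ => by simp
  add_mem' := by
    intro f g hf hg m hm
    change MvPowerSeries.coeff m ((f : R) + (g : R)) = _
    rw [map_add, hf m hm, hg m hm, add_zero]
  neg_mem' := by
    intro f hf m hm
    change MvPowerSeries.coeff m (-(f : R)) = _
    rw [map_neg, hf m hm, neg_zero]

variable (hQ : ∀ F : R, F ∈ Q ↔ IsQS F)

theorem qp_intQ (k : ℕ) (f : Q) (hf : f ∈ intQ Q) : (bottom hQ).qp k f ∈ intQ Q := by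
  intro m
  exact hf (sh k m)

theorem qp_degQ (a k : ℕ) (f : Q) (hf : f ∈ degQ Q a) : (bottom hQ).qp k f ∈ degQ Q (a - k) := by
  intro m hm
  change MvPowerSeries.coeff m (part k f) = 0
  rw [coeff_part]
  apply hf
  rw [deg_sh]
  omega

theorem degQ_mono {a b : ℕ} (h : a ≤ b) : degQ Q a ≤ degQ Q b :=
  fun _ hf m hm => hf m (by omega)

theorem iter_mem (T : AddSubgroup Q) (hT : ∀ k, ∀ f ∈ T, (bottom hQ).qp k f ∈ T) (m : ℕ) {f : Q}
    (hf : f ∈ T) : ((bottom hQ).qp 1)^[m] f ∈ T := by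
  induction m with
  | zero => exact hf
  | succ m ih =>
    rw [Function.iterate_succ_apply']
    exact hT 1 _ ih

theorem iter_vanish (m : ℕ) : ∀ (a : ℕ) (f : Q), f ∈ degQ Q a → a < m →
    ((bottom hQ).qp 1)^[m] f = 0 := by
  induction m with
  | zero => intro a f _ h; omega
  | succ m ih =>
    intro a f hf ha
    rw [Function.iterate_succ_apply]
    rcases Nat.eq_zero_or_pos a with h | h
    · have h1 : (bottom hQ).qp 1 f = 0 := by
        apply Subtype.ext
        ext μ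
        change MvPowerSeries.coeff μ (part 1 f) = MvPowerSeries.coeff μ 0
        rw [coeff_part, map_zero]
        apply hf
        rw [deg_sh]
        omega
      rw [h1]
      exact (bottom hQ).isDer_one.isHS.zero' m
    · exact ih (a - 1) _ (qp_degQ hQ a 1 f hf) (by omega)

variable {P : Type*} [Fintype P] [DecidableEq P] [PartialOrder P]

/-- the constant coefficient -/
noncomputable def cc (Q : Subring R) : Q →+* ℚ := (MvPowerSeries.constantCoeff).comp Q.subtype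

theorem cc_apply (f : Q) : cc Q f = MvPowerSeries.coeff 0 (f : R) := by
  rw [MvPowerSeries.coeff_zero_eq_constantCoeff_apply]
  rfl

open Classical in
theorem fac_aux (ω : P → ℕ) (hω : Function.Injective ω) (F₁ F : Q →+* Q[X])
    (hF₁ : ∀ T : AddSubgroup Q, (∀ k, ∀ f ∈ T, (bottom hQ).qp k f ∈ T) → ∀ f ∈ T, ∀ k,
      (F₁ f).coeff k ∈ T)
    (hF : ∀ T : AddSubgroup Q, (∀ k, ∀ f ∈ T, (bottom hQ).qp k f ∈ T) → ∀ f ∈ T, ∀ k,
      (F f).coeff k ∈ T)
    (hinv : ∀ f, (eval₂RingHom F X) (F₁ f) = C f)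
    (s₁ s₂ : ℤ) (w : P → ℤ)
    (h1 : ∀ U, F₁ (GamQ hQ ω U) = ∑ I ∈ wks (fun a b : P => a < b) w U,
      C (((s₁ ^ I.card : ℤ) : Q) * GamQ hQ ω (U \ I)) * X ^ I.card)
    (h2 : ∀ U, F (GamQ hQ ω U) = ∑ J ∈ wks (fun a b : P => a < b) (-w) U,
      C (((s₂ ^ J.card : ℤ) : Q) * GamQ hQ ω (U \ J)) * X ^ J.card)
    {A B : Q} {a b : ℕ} (hA : A ∈ intQ Q) (hB : B ∈ intQ Q) (hAd : A ∈ degQ Q a)
    (hBd : B ∈ degQ Q b) (hA0 : MvPowerSeries.coeff 0 (A : R) = 0)
    (hB0 : MvPowerSeries.coeff 0 (B : R) = 0)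
    (hAB : GamQ hQ ω (univ : Finset P) = A * B) :
    ∃ α β : ℕ → ℤ, α 0 = 0 ∧ β 0 = 0 ∧ (∀ i, a < i → α i = 0) ∧ (∀ j, b < j → β j = 0) ∧
      ∀ m ≤ Fintype.card P, (∑ x : Finset P × Finset P,
        if Good w x.1 x.2 ∧ x.1.card + x.2.card = Fintype.card P - m then
          s₁ ^ x.1.card * s₂ ^ x.2.card * (lext (univ \ (x.1 ∪ x.2)) : ℤ) else 0) =
        ∑ ij ∈ antidiagonal m, (m.choose ij.1 : ℤ) * (α ij.1 * β ij.2) := by
  have hHS := (bottom hQ).isDer_one.isHS
  set σ : ℕ → Q → ℚ := sg F₁ (eval₂RingHom F X) (fun m => ((bottom hQ).qp 1)^[m]) (cc Q) with hσ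
  have hint : ∀ (m : ℕ) (f : Q), f ∈ intQ Q → ∃ z : ℤ, (z : ℚ) = σ m f := by
    intro m f hf
    have h3 : ((eval₂RingHom F X) (mapD (((bottom hQ).qp 1)^[m]) (F₁ f))).eval 1 ∈ intQ Q := by
      apply eval_hat_mem (intQ Q) F (hF (intQ Q) (qp_intQ hQ))
      intro k
      rw [coeff_mapD' (hHS.zero' m)]
      exact iter_mem hQ (intQ Q) (qp_intQ hQ) m (hF₁ (intQ Q) (qp_intQ hQ) f hf k)
    obtain ⟨z, hz⟩ := h3 0
    refine ⟨z, ?_⟩
    rw [hσ, sg, cc_apply, hz]
  have hdeg : ∀ (a m : ℕ) (f : Q), f ∈ degQ Q a → a < m → σ m f = 0 := by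
    intro a m f hf ham
    rw [hσ]
    apply sg_vanish
    intro k
    apply iter_vanish hQ m a _ _ ham
    exact hF₁ (degQ Q a) (fun k g hg => degQ_mono (by omega) (qp_degQ hQ a k g hg)) f hf k
  have hzero : ∀ f : Q, σ 0 f = MvPowerSeries.coeff 0 (f : R) := by
    intro f
    rw [hσ, sg_zero hHS hinv, cc_apply]
  choose α hα using fun m => hint m A hA
  choose β hβ using fun m => hint m B hB
  refine ⟨α, β, ?_, ?_, ?_, ?_, ?_⟩
  · have := hα 0
    rw [hzero, hA0] at this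
    exact_mod_cast this
  · have := hβ 0
    rw [hzero, hB0] at this
    exact_mod_cast this
  · intro i hi
    have := hα i
    rw [hdeg a i A hAd hi] at this
    exact_mod_cast this
  · intro j hj
    have := hβ j
    rw [hdeg b j B hBd hj] at this
    exact_mod_cast this
  · intro m hm
    have h3 : σ m (GamQ hQ ω (univ : Finset P)) =
        ((∑ x : Finset P × Finset P,
        if Good w x.1 x.2 ∧ x.1.card + x.2.card = Fintype.card P - m then
          s₁ ^ x.1.card * s₂ ^ x.2.card * (lext (univ \ (x.1 ∪ x.2)) : ℤ) else 0 : ℤ) : ℚ) := by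
      rw [← triple_eq w ω s₁ s₂ m hm, hσ]
      refine sg_Gamma (GamQ hQ ω) F₁ F (cc Q) s₁ s₂ w (-w) h1 h2 hHS m (LL ω m)
        (fun U => iter_Gamma (bottom hQ) (GamQ hQ ω) ω hω (bottom_rec hQ ω hω) m U) ?_
      intro U
      rw [cc_apply]
      exact coeff_zero_Gam ω U
    have h4 : σ m (A * B) = ((∑ ij ∈ antidiagonal m, (m.choose ij.1 : ℤ) * (α ij.1 * β ij.2) :
        ℤ) : ℚ) := by
      rw [hσ, sg_mul hHS, Int.cast_sum]
      apply Finset.sum_congr rfl
      intro ij _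
      push_cast
      rw [hα, hβ]
    rw [← hAB, h3] at h4
    exact_mod_cast h4

end

end Pool.Agent.Lib.MP_5bc52d_co
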