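import Mathlib
import Pool.Agent.Lib.MP_5bc52d_co.Lin.Main

/-!
# The arithmetic criterion
-/

open Finset Polynomial

set_option linter.unusedSectionVars false

namespace Pool.Agent.Lib.MP_5bc52d_co

open Splitting

section
variable {Q : Subring R} (hQ : ∀ F : R, F ∈ Q ↔ IsQS F)
variable {P : Type*} [Fintype P] [DecidableEq P] [PartialOrder P]

theorem GamQ_hom (ω : P → ℕ) (d : ℕ) (hd : d ≠ Fintype.card P) :
    Cyc.hc d ((GamQ hQ ω (univ : Finset P) : Q) : R) = 0 := by
  ext m
  rw [Cyc.coeff_hc]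
  split_ifs with h
  · change MvPowerSeries.coeff m (Gam ω univ) = _
    rw [coeff_Gam]
    have h1 : Sol ω (univ : Finset P) m = ∅ := by
      rw [Set.eq_empty_iff_forall_notMem]
      intro f hf
      apply hd
      rw [← h, Cyc.deg, ← hf.2.2, deg_cnt, Finset.card_univ]
    rw [h1]
    simp
  · simp

/-- a reducible generating function is a product of two factors with integer coefficients,
without constant terms -/
theorem exists_factor (ω : P → ℕ) (hω : Function.Injective ω) [Nonempty P]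
    (h : ¬ Irreducible (GamQ hQ ω (univ : Finset P))) :
    ∃ (A B : Q) (a b : ℕ), 0 < a ∧ 0 < b ∧ a + b = Fintype.card P ∧ A ∈ intQ Q ∧ B ∈ intQ Q ∧
      A ∈ degQ Q a ∧ B ∈ degQ Q b ∧ MvPowerSeries.coeff 0 (A : R) = 0 ∧
      MvPowerSeries.coeff 0 (B : R) = 0 ∧ GamQ hQ ω (univ : Finset P) = A * B := by
  classical
  have hD : IsDomain R := NoZeroDivisors.to_isDomain R
  set G := GamQ hQ ω (univ : Finset P) with hG
  have hG0 : G ≠ 0 := fun h1 => Gam_ne_zero ω univ (congrArg Subtype.val h1)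
  have hG00 : MvPowerSeries.coeff 0 (G : R) = 0 := by
    change MvPowerSeries.coeff 0 (Gam ω univ) = 0
    rw [coeff_zero_Gam, if_neg]
    exact Finset.univ_nonempty.ne_empty
  rw [irreducible_iff] at h
  push Not at h
  have hnu : ¬ IsUnit G := by
    rintro ⟨u, hu⟩
    have h1 : (G : R) * ((↑u⁻¹ : Q) : R) = 1 := by
      rw [← hu]
      have : (u : Q) * (↑u⁻¹ : Q) = 1 := by simp
      exact congrArg Subtype.val this
    have h2 := congrArg (MvPowerSeries.coeff 0) h1
    rw [MvPowerSeries.coeff_zero_eq_constantCoeff_apply, map_mul,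
      ← MvPowerSeries.coeff_zero_eq_constantCoeff_apply, hG00, zero_mul,
      MvPowerSeries.coeff_one, if_pos rfl] at h2
    exact zero_ne_one h2
  obtain ⟨A, B, hAB, hAu, hBu⟩ := h hnu
  have hhom := GamQ_hom hQ ω
  rw [← hG] at hhom
  have hA0 : MvPowerSeries.coeff 0 (A : R) = 0 := by
    by_contra h1
    apply hAu
    refine Cyc.isUnit_of_mul (A := A) (B := B) (n := Fintype.card P) hQ ?_ ?_ h1
    · rw [← hAB]; exact hhom
    · rw [← hAB]; exact hG0
  have hB0 : MvPowerSeries.coeff 0 (B : R) = 0 := by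
    by_contra h1
    apply hBu
    refine Cyc.isUnit_of_mul (A := B) (B := A) (n := Fintype.card P) hQ ?_ ?_ h1
    · rw [mul_comm, ← hAB]; exact hhom
    · rw [mul_comm, ← hAB]; exact hG0
  have hAn : (A : R) ≠ 0 := by
    intro h1
    apply hG0
    rw [hAB]
    apply Subtype.ext
    change (A : R) * (B : R) = 0
    rw [h1, zero_mul]
  have hBn : (B : R) ≠ 0 := by
    intro h1
    apply hG0
    rw [hAB]
    apply Subtype.ext
    change (A : R) * (B : R) = 0
    rw [h1, mul_zero]
  obtain ⟨NA, hNA⟩ := ((hQ _).mp A.2).1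
  obtain ⟨NB, hNB⟩ := ((hQ _).mp B.2).1
  obtain ⟨a, ha1, ha2⟩ := Cyc.exists_max hAn hNA
  obtain ⟨b, hb1, hb2⟩ := Cyc.exists_max hBn hNB
  have hab : a + b = Fintype.card P := by
    by_contra h1
    have h2 : Cyc.hc (a + b) (G : R) ≠ 0 := by
      rw [hAB]
      change Cyc.hc (a + b) ((A : R) * (B : R)) ≠ 0
      rw [Cyc.hc_mul_top ha2 hb2]
      exact mul_ne_zero ha1 hb1
    exact h2 (hhom _ h1)
  have hpos : ∀ (F : R) (d : ℕ), MvPowerSeries.coeff 0 F = 0 → Cyc.hc d F ≠ 0 → 0 < d := by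
    intro F d h1 h2
    rw [Nat.pos_iff_ne_zero]
    rintro rfl
    apply h2
    ext m
    rw [Cyc.coeff_hc]
    split_ifs with h3
    · have h4 : m = 0 := by
        rw [Cyc.deg, Finsupp.sum, Finset.sum_eq_zero_iff] at h3
        ext i
        by_cases hi : i ∈ m.support
        · exact h3 i hi
        · simpa using hi
      rw [h4, h1]
      simp
    · simp
  have hdeg : ∀ (F : Q) (d : ℕ), (∀ e, d < e → Cyc.hc e (F : R) = 0) → F ∈ degQ Q d := by
    intro F d h1 m hm
    have h2 := congrArg (MvPowerSeries.coeff m) (h1 _ hm)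
    rw [Cyc.coeff_hc, Cyc.deg, if_pos rfl] at h2
    exact h2
  obtain ⟨c, Z, hc, hZ, hZp⟩ := exists_primitive ((hQ _).mp A.2) hAn
  obtain ⟨c', Z', hc', hZ', hZp'⟩ := exists_primitive ((hQ _).mp B.2) hBn
  have hu : c * c' = 1 ∨ c * c' = -1 := by
    refine Prim.eq_one (hZp.mul hZp') (prim_GamZ ω hω (univ : Finset P)) ?_
    rw [map_mul, hZ, hZ', map_GamZ, map_mul]
    have h1 : (Gam ω (univ : Finset P) : R) = (A : R) * (B : R) := congrArg Subtype.val hAB
    rw [h1]
    ring
  set KA : Q := ⟨MvPowerSeries.C (c * c' * c), (hQ _).mpr (C_isQS _)⟩ with hKA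
  set KB : Q := ⟨MvPowerSeries.C c', (hQ _).mpr (C_isQS _)⟩ with hKB
  have hsq : (c * c') * (c * c') = 1 := by
    rcases hu with h1 | h1 <;> rw [h1] <;> norm_num
  refine ⟨KA * A, KB * B, a, b, hpos _ a hA0 ha1, hpos _ b hB0 hb1, hab, ?_, ?_, ?_, ?_, ?_, ?_,
    ?_⟩
  · intro m
    have h1 := congrArg (MvPowerSeries.coeff m) hZ
    rw [MvPowerSeries.coeff_map, MvPowerSeries.coeff_C_mul] at h1
    change ∃ z : ℤ, MvPowerSeries.coeff m (MvPowerSeries.C (c * c' * c) * (A : R)) = (z : ℚ)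
    rw [MvPowerSeries.coeff_C_mul, mul_assoc, ← h1]
    rcases hu with h2 | h2
    · exact ⟨MvPowerSeries.coeff m Z, by rw [h2]; simp⟩
    · exact ⟨-MvPowerSeries.coeff m Z, by rw [h2]; simp⟩
  · intro m
    have h1 := congrArg (MvPowerSeries.coeff m) hZ'
    rw [MvPowerSeries.coeff_map, MvPowerSeries.coeff_C_mul] at h1
    change ∃ z : ℤ, MvPowerSeries.coeff m (MvPowerSeries.C c' * (B : R)) = (z : ℚ)
    rw [MvPowerSeries.coeff_C_mul, ← h1]
    exact ⟨MvPowerSeries.coeff m Z', rfl⟩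
  · intro m hm
    change MvPowerSeries.coeff m (MvPowerSeries.C (c * c' * c) * (A : R)) = 0
    rw [MvPowerSeries.coeff_C_mul, hdeg A a ha2 m hm, mul_zero]
  · intro m hm
    change MvPowerSeries.coeff m (MvPowerSeries.C c' * (B : R)) = 0
    rw [MvPowerSeries.coeff_C_mul, hdeg B b hb2 m hm, mul_zero]
  · change MvPowerSeries.coeff 0 (MvPowerSeries.C (c * c' * c) * (A : R)) = 0
    rw [MvPowerSeries.coeff_C_mul, hA0, mul_zero]
  · change MvPowerSeries.coeff 0 (MvPowerSeries.C c' * (B : R)) = 0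
    rw [MvPowerSeries.coeff_C_mul, hB0, mul_zero]
  · rw [hAB]
    apply Subtype.ext
    change (A : R) * (B : R) =
      (MvPowerSeries.C (c * c' * c) * (A : R)) * (MvPowerSeries.C c' * (B : R))
    have h1 : (MvPowerSeries.C (c * c' * c) * (A : R)) * (MvPowerSeries.C c' * (B : R)) =
      MvPowerSeries.C ((c * c') * (c * c')) * ((A : R) * (B : R)) := by
      simp only [map_mul]
      ring
    rw [h1, hsq, map_one, one_mul]

open Classical in
/-- the signed count of linear extensions -/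
noncomputable def NN (w : P → ℤ) (c : ℕ) : ℤ :=
  ∑ x : Finset P × Finset P, if Good w x.1 x.2 ∧ x.1.card + x.2.card = c then
    (-1) ^ x.2.card * (lext (univ \ (x.1 ∪ x.2)) : ℤ) else 0

/-- the sequence of signed counts is a product -/
def Fac (w : P → ℤ) (a b : ℕ) : Prop :=
  ∃ α β : ℕ → ℤ, α 0 = 0 ∧ β 0 = 0 ∧ (∀ i, a < i → α i = 0) ∧ (∀ j, b < j → β j = 0) ∧
    ∀ m ≤ a + b, NN w (a + b - m) =
      ∑ ij ∈ antidiagonal m, (m.choose ij.1 : ℤ) * (α ij.1 * β ij.2)

theorem fac_of_reducible (ω : P → ℕ) (hω : Function.Injective ω) [Nonempty P]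
    (h : ¬ Irreducible (GamQ hQ ω (univ : Finset P))) :
    ∃ a b : ℕ, 0 < a ∧ 0 < b ∧ a + b = Fintype.card P ∧ Fac (fun p : P => (ω p : ℤ)) a b ∧
      Fac (fun p : P => -(ω p : ℤ)) a b := by
  classical
  obtain ⟨A, B, a, b, ha, hb, hab, hA, hB, hAd, hBd, hA0, hB0, hAB⟩ := exists_factor hQ ω hω h
  refine ⟨a, b, ha, hb, hab, ?_, ?_⟩
  · have hω' : Function.Injective (fun p => (ω p : ℤ)) := fun a b h => hω (by simpa using h)
    obtain ⟨α, β, h1, h2, h3, h4, h5⟩ := fac_aux hQ ω hω (bottom hQ).E (bottom hQ).N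
      (fun T hT f hf k => by rw [coeff_E]; exact hT k f hf)
      (fun T hT f hf k => coeff_N_mem _ T hT hf k)
      (fun f => (bottom hQ).Nhat_E f) 1 (-1) (fun p => (ω p : ℤ))
      (fun U => by
        rw [E_Gamma (bottom hQ) (GamQ hQ ω) (fun U k => bottom_rec hQ ω hω U k) U]
        apply Finset.sum_congr rfl
        intro I _
        simp)
      (fun U => by
        rw [N_Gamma (bottom hQ) (GamQ hQ ω) (fun x => lt_irrefl x) hω'
          (fun U k => bottom_rec hQ ω hω U k) U]
        apply Finset.sum_congr rfl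
        intro I _
        simp [mul_assoc])
      hA hB hAd hBd hA0 hB0 hAB
    refine ⟨α, β, h1, h2, h3, h4, fun m hm => ?_⟩
    rw [← h5 m (by omega), NN, hab]
    apply Finset.sum_congr rfl
    intro x _
    simp
  · have hω' : Function.Injective (fun p => (ω p : ℤ)) := fun a b h => hω (by simpa using h)
    have hneg : (fun p : P => -(ω p : ℤ)) = -(fun p : P => (ω p : ℤ)) := rfl
    obtain ⟨α, β, h1, h2, h3, h4, h5⟩ := fac_aux hQ ω hω (bottom hQ).N (bottom hQ).E
      (fun T hT f hf k => coeff_N_mem _ T hT hf k)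
      (fun T hT f hf k => by rw [coeff_E]; exact hT k f hf)
      (fun f => (bottom hQ).Ehat_N f) (-1) 1 (fun p => -(ω p : ℤ))
      (fun U => by
        rw [N_Gamma (bottom hQ) (GamQ hQ ω) (fun x => lt_irrefl x) hω'
          (fun U k => bottom_rec hQ ω hω U k) U, hneg]
        apply Finset.sum_congr rfl
        intro I _
        simp [mul_assoc])
      (fun U => by
        rw [E_Gamma (bottom hQ) (GamQ hQ ω) (fun U k => bottom_rec hQ ω hω U k) U, hneg, neg_neg]
        apply Finset.sum_congr rfl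
        intro I _
        simp)
      hA hB hAd hBd hA0 hB0 hAB
    refine ⟨fun i => (-1) ^ (a + i) * α i, fun j => (-1) ^ (b + j) * β j, by simp [h1],
      by simp [h2], fun i hi => by simp [h3 i hi], fun j hj => by simp [h4 j hj],
      fun m hm => ?_⟩
    have h6 := h5 m (by omega)
    have h7 : ∑ ij ∈ antidiagonal m, (m.choose ij.1 : ℤ) *
        ((-1) ^ (a + ij.1) * α ij.1 * ((-1) ^ (b + ij.2) * β ij.2)) =
        (-1) ^ (a + b - m) * ∑ ij ∈ antidiagonal m, (m.choose ij.1 : ℤ) * (α ij.1 * β ij.2) := by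
      rw [Finset.mul_sum]
      apply Finset.sum_congr rfl
      intro ij hij
      rw [HasAntidiagonal.mem_antidiagonal] at hij
      have h8 : ((-1 : ℤ)) ^ (a + ij.1) * (-1) ^ (b + ij.2) = (-1) ^ (a + b - m) := by
        rw [← pow_add]
        have h9 : a + ij.1 + (b + ij.2) = (a + b - m) + 2 * m := by omega
        rw [h9, pow_add, pow_mul]
        simp
      rw [← h8]
      ring
    rw [h7, ← h6, NN, Finset.mul_sum, hab]
    apply Finset.sum_congr rfl
    intro x _
    by_cases hx : Good (fun p : P => -(ω p : ℤ)) x.1 x.2 ∧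
        x.1.card + x.2.card = Fintype.card P - m
    · rw [if_pos hx, if_pos hx, ← hx.2, pow_add, one_pow]
      have h8 : ((-1 : ℤ)) ^ x.1.card * (-1) ^ x.1.card = 1 := by
        rw [← pow_add, ← two_mul, pow_mul]
        simp
      linear_combination (-(-1) ^ x.2.card * (lext (univ \ (x.1 ∪ x.2)) : ℤ)) * h8
    · rw [if_neg hx, if_neg hx, mul_zero]

end

end Pool.Agent.Lib.MP_5bc52d_co
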